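import Mathlib

/-!
# Nonzero base-p digits of n versus those of n ^ 2

For every prime `p` the question is answered in the negative. The witnesses are
`n = 1 + u x - v x ^ 2 + t x ^ 3 + w x ^ 4` with `x = p ^ a` and `(u, v, t, w)` one of
`(2, 2, 4, 4)`, `(3, 3, 9, 9)`, `(2, 1, 2, 1)`; all coefficients of the square are nonnegative:
* `(1 + 2x - 2x^2 + 4x^3 + 4x^4)^2 = 1 + 4x + 28x^4 + 32x^7 + 16x^8`,
* `(1 + 3x - 3x^2 + 9x^3 + 9x^4)^2 = 1 + 6x + 3x^2 + 81x^4 + 27x^6 + 162x^7 + 81x^8`,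
* `(1 + 2x - x^2 + 2x^3 + x^4)^2 = 1 + 4x + 2x^2 + 11x^4 + 2x^6 + 4x^7 + x^8`.
-/

namespace Pool.Agent.Results.MP_dd1d4c_nt.SquareDigits

/-- The number of nonzero digits of `m` in base `p`. -/
def nonzeroDigits (p m : ℕ) : ℕ := (Nat.digits p m).countP (fun d => d ≠ 0)

lemma nz_zero (b : ℕ) : nonzeroDigits b 0 = 0 := by
  simp [nonzeroDigits]

/-- Splitting off the lowest digit. -/
lemma nz_add_mul (b : ℕ) (hb : 1 < b) (x y : ℕ) (hx : x < b) :
    nonzeroDigits b (x + b * y) = (if x = 0 then 0 else 1) + nonzeroDigits b y := by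
  by_cases hxy : x ≠ 0 ∨ y ≠ 0
  · unfold nonzeroDigits
    rw [Nat.digits_add b hb x y hx hxy, List.countP_cons]
    by_cases h0 : x = 0
    · simp [h0]
    · simp [h0]; omega
  · push Not at hxy
    obtain ⟨rfl, rfl⟩ := hxy
    simp [nonzeroDigits]

/-- Additivity of the digit count for blocks that do not overlap. -/
lemma nz_add_pow_mul (b : ℕ) (hb : 1 < b) :
    ∀ (k x y : ℕ), x < b ^ k →
      nonzeroDigits b (x + b ^ k * y) = nonzeroDigits b x + nonzeroDigits b y := by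
  intro k
  induction k with
  | zero =>
    intro x y hx
    have : x = 0 := by simpa using hx
    subst this
    simp [nz_zero]
  | succ k ih =>
    intro x y hx
    have hb0 : 0 < b := by omega
    have hmod : x % b < b := Nat.mod_lt _ hb0
    have hdiv : x / b < b ^ k := by
      apply Nat.div_lt_of_lt_mul
      rw [pow_succ] at hx
      linarith [hx, mul_comm (b ^ k) b]
    have hx' : x = x % b + b * (x / b) := (Nat.mod_add_div x b).symm
    have h1 : x + b ^ (k + 1) * y = x % b + b * (x / b + b ^ k * y) := by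
      conv_lhs => rw [hx']
      ring
    rw [h1, nz_add_mul b hb _ _ hmod, ih _ _ hdiv]
    conv_rhs => rw [hx', nz_add_mul b hb _ _ hmod]
    ring

/-- `b ^ a - 1` has `a` nonzero digits. -/
lemma nz_pow_sub_one (b : ℕ) (hb : 1 < b) : ∀ a : ℕ, nonzeroDigits b (b ^ a - 1) = a := by
  intro a
  induction a with
  | zero => simp [nz_zero]
  | succ a ih =>
    have hpos : 0 < b ^ a := Nat.pos_of_ne_zero (by positivity)
    have h : b ^ (a + 1) - 1 = (b - 1) + b * (b ^ a - 1) := by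
      obtain ⟨c, hc⟩ : ∃ c, b ^ a = c + 1 := ⟨b ^ a - 1, by omega⟩
      rw [pow_succ, hc]
      have : (c + 1) * b = b * c + b := by ring
      rw [this]
      simp only [Nat.add_sub_cancel]
      omega
    rw [h, nz_add_mul b hb _ _ (by omega), ih]
    have : b - 1 ≠ 0 := by omega
    simp [this]
    omega

/-- `b ^ (a + 1) - v` has at least `a` nonzero digits when `1 ≤ v ≤ b`. -/
lemma nz_pow_sub (b : ℕ) (hb : 1 < b) (v : ℕ) (hv : 1 ≤ v) (hvb : v ≤ b) (a : ℕ) :
    a ≤ nonzeroDigits b (b ^ (a + 1) - v) := by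
  have hpos : 0 < b ^ a := Nat.pos_of_ne_zero (by positivity)
  have h : b ^ (a + 1) - v = (b - v) + b * (b ^ a - 1) := by
    obtain ⟨c, hc⟩ : ∃ c, b ^ a = c + 1 := ⟨b ^ a - 1, by omega⟩
    rw [pow_succ, hc]
    have : (c + 1) * b = b * c + b := by ring
    rw [this]
    simp only [Nat.add_sub_cancel]
    omega
  rw [h, nz_add_mul b hb _ _ (by omega), nz_pow_sub_one b hb]
  omega

lemma nz_digit (b : ℕ) (hb : 1 < b) (x : ℕ) (hx : x < b) : nonzeroDigits b x ≤ 1 := by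
  have := nz_add_mul b hb x 0 hx
  simp only [mul_zero, add_zero, nz_zero] at this
  rw [this]
  split_ifs <;> omega

lemma nz_two_digits (b : ℕ) (hb : 1 < b) (x : ℕ) (hx : x < b * b) : nonzeroDigits b x ≤ 2 := by
  have hmod : x % b < b := Nat.mod_lt _ (by omega)
  have hdiv : x / b < b := Nat.div_lt_of_lt_mul hx
  have hx' : x = x % b + b * (x / b) := (Nat.mod_add_div x b).symm
  rw [hx', nz_add_mul b hb _ _ hmod]
  have := nz_digit b hb _ hdiv
  split_ifs <;> omega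

/-- The integer `1 + u x - v x ^ 2 + t x ^ 3 + w x ^ 4` (for `v ≤ x`, `1 ≤ t`), written in blocks. -/
def witness (u v t w x : ℕ) : ℕ := (1 + u * x) + x ^ 2 * ((x - v) + x * ((t - 1) + x * w))

/-- The witnesses have many nonzero digits. -/
lemma nz_witness (b : ℕ) (hb : 1 < b) (u v t w : ℕ) (hv : 1 ≤ v) (hvb : v ≤ b) (a : ℕ)
    (hu : u < b ^ (a + 1)) : a ≤ nonzeroDigits b (witness u v t w (b ^ (a + 1))) := by
  unfold witness
  have hpos : 0 < b ^ (a + 1) := Nat.pos_of_ne_zero (by positivity)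
  have e2 : (b ^ (a + 1)) ^ 2 = b ^ ((a + 1) * 2) := (pow_mul b (a + 1) 2).symm
  have hlt : 1 + u * b ^ (a + 1) < b ^ ((a + 1) * 2) := by
    rw [← e2]
    have hb1 : 1 < b ^ (a + 1) := Nat.one_lt_pow (by omega) hb
    nlinarith
  have hlt' : b ^ (a + 1) - v < b ^ (a + 1) := by omega
  rw [e2, nz_add_pow_mul b hb _ _ _ hlt, nz_add_pow_mul b hb _ _ _ hlt']
  have := nz_pow_sub b hb v hv hvb a
  omega

lemma sq_A (x : ℕ) (hx : 2 ≤ x) :
    witness 2 2 4 4 x ^ 2 = 1 + x * (4 + x ^ 3 * (28 + x ^ 3 * (32 + x * 16))) := by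
  obtain ⟨c, rfl⟩ : ∃ c, x = c + 2 := ⟨x - 2, by omega⟩
  unfold witness
  simp only [Nat.add_sub_cancel]
  ring

lemma sq_B (x : ℕ) (hx : 3 ≤ x) :
    witness 3 3 9 9 x ^ 2 =
      1 + x * (6 + x * (3 + x ^ 2 * (81 + x ^ 2 * (27 + x * (162 + x * 81))))) := by
  obtain ⟨c, rfl⟩ : ∃ c, x = c + 3 := ⟨x - 3, by omega⟩
  unfold witness
  simp only [Nat.add_sub_cancel]
  ring

lemma sq_C (x : ℕ) (hx : 1 ≤ x) :
    witness 2 1 2 1 x ^ 2 =
      1 + x * (4 + x * (2 + x ^ 2 * (11 + x ^ 2 * (2 + x * (4 + x * 1))))) := by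
  obtain ⟨c, rfl⟩ : ∃ c, x = c + 1 := ⟨x - 1, by omega⟩
  unfold witness
  simp only [Nat.add_sub_cancel]
  ring

lemma two_pow_ge (b : ℕ) (hb : 1 < b) (a : ℕ) (ha : 8 ≤ a) : 256 ≤ b ^ a := by
  calc (256 : ℕ) = 2 ^ 8 := by norm_num
    _ ≤ b ^ 8 := Nat.pow_le_pow_left hb 8
    _ ≤ b ^ a := Nat.pow_le_pow_right (by omega) ha

lemma nz_sq_A (b : ℕ) (hb : 1 < b) (a : ℕ) (ha : 8 ≤ a) :
    nonzeroDigits b (witness 2 2 4 4 (b ^ a) ^ 2) =
      nonzeroDigits b 1 + (nonzeroDigits b 4 + (nonzeroDigits b 28 +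
        (nonzeroDigits b 32 + nonzeroDigits b 16))) := by
  have hx := two_pow_ge b hb a ha
  rw [sq_A _ (by omega)]
  have e3 : (b ^ a) ^ 3 = b ^ (a * 3) := (pow_mul b a 3).symm
  have hx3 : 256 ≤ b ^ (a * 3) := two_pow_ge b hb _ (by omega)
  rw [e3]
  rw [nz_add_pow_mul b hb a _ _ (by omega), nz_add_pow_mul b hb (a * 3) _ _ (by omega),
    nz_add_pow_mul b hb (a * 3) _ _ (by omega), nz_add_pow_mul b hb a _ _ (by omega)]

lemma nz_sq_B (b : ℕ) (hb : 1 < b) (a : ℕ) (ha : 8 ≤ a) :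
    nonzeroDigits b (witness 3 3 9 9 (b ^ a) ^ 2) =
      nonzeroDigits b 1 + (nonzeroDigits b 6 + (nonzeroDigits b 3 + (nonzeroDigits b 81 +
        (nonzeroDigits b 27 + (nonzeroDigits b 162 + nonzeroDigits b 81))))) := by
  have hx := two_pow_ge b hb a ha
  rw [sq_B _ (by omega)]
  have e2 : (b ^ a) ^ 2 = b ^ (a * 2) := (pow_mul b a 2).symm
  have hx2 : 256 ≤ b ^ (a * 2) := two_pow_ge b hb _ (by omega)
  rw [e2]
  rw [nz_add_pow_mul b hb a _ _ (by omega), nz_add_pow_mul b hb a _ _ (by omega),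
    nz_add_pow_mul b hb (a * 2) _ _ (by omega), nz_add_pow_mul b hb (a * 2) _ _ (by omega),
    nz_add_pow_mul b hb a _ _ (by omega), nz_add_pow_mul b hb a _ _ (by omega)]

lemma nz_sq_C (b : ℕ) (hb : 1 < b) (a : ℕ) (ha : 8 ≤ a) :
    nonzeroDigits b (witness 2 1 2 1 (b ^ a) ^ 2) =
      nonzeroDigits b 1 + (nonzeroDigits b 4 + (nonzeroDigits b 2 + (nonzeroDigits b 11 +
        (nonzeroDigits b 2 + (nonzeroDigits b 4 + nonzeroDigits b 1))))) := by
  have hx := two_pow_ge b hb a ha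
  rw [sq_C _ (by omega)]
  have e2 : (b ^ a) ^ 2 = b ^ (a * 2) := (pow_mul b a 2).symm
  have hx2 : 256 ≤ b ^ (a * 2) := two_pow_ge b hb _ (by omega)
  rw [e2]
  rw [nz_add_pow_mul b hb a _ _ (by omega), nz_add_pow_mul b hb a _ _ (by omega),
    nz_add_pow_mul b hb (a * 2) _ _ (by omega), nz_add_pow_mul b hb (a * 2) _ _ (by omega),
    nz_add_pow_mul b hb a _ _ (by omega), nz_add_pow_mul b hb a _ _ (by omega)]

/-- **Negative answer for every prime.** For every prime `p` the number of nonzero base-`p` digits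
of `n` is unbounded on the set of natural numbers `n` whose square has at most `s` nonzero base-`p`
digits, where `s = 5` if `37 ≤ p` and `s = 8` otherwise. -/
theorem result (p : ℕ) (hp : p.Prime) :
    ∀ ℓ : ℕ, ∃ n : ℕ,
      nonzeroDigits p (n ^ 2) ≤ (if 37 ≤ p then 5 else 8) ∧ ℓ < nonzeroDigits p n := by
  intro ℓ
  have hb : 1 < p := hp.one_lt
  have hx : 256 ≤ p ^ (ℓ + 7 + 1) := two_pow_ge p hb _ (by omega)
  by_cases h37 : 37 ≤ p
  · refine ⟨witness 2 2 4 4 (p ^ (ℓ + 7 + 1)), ?_, ?_⟩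
    · rw [if_pos h37, nz_sq_A p hb _ (by omega)]
      have h1 := nz_digit p hb 1 (by omega)
      have h2 := nz_digit p hb 4 (by omega)
      have h3 := nz_digit p hb 28 (by omega)
      have h4 := nz_digit p hb 32 (by omega)
      have h5 := nz_digit p hb 16 (by omega)
      omega
    · have := nz_witness p hb 2 2 4 4 (by norm_num) (by omega) (ℓ + 7) (by omega)
      omega
  rw [if_neg h37]
  by_cases h2 : p = 2
  · refine ⟨witness 2 2 4 4 (p ^ (ℓ + 7 + 1)), ?_, ?_⟩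
    · rw [nz_sq_A p hb _ (by omega)]
      subst h2
      simp [nonzeroDigits]
    · have := nz_witness p hb 2 2 4 4 (by norm_num) (by omega) (ℓ + 7) (by omega)
      omega
  by_cases h3 : p = 3
  · refine ⟨witness 3 3 9 9 (p ^ (ℓ + 7 + 1)), ?_, ?_⟩
    · rw [nz_sq_B p hb _ (by omega)]
      subst h3
      simp [nonzeroDigits]
    · have := nz_witness p hb 3 3 9 9 (by norm_num) (by omega) (ℓ + 7) (by omega)
      omega
  have h4 : p ≠ 4 := by rintro rfl; exact absurd hp (by norm_num)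
  have h5 : 5 ≤ p := by omega
  refine ⟨witness 2 1 2 1 (p ^ (ℓ + 7 + 1)), ?_, ?_⟩
  · rw [nz_sq_C p hb _ (by omega)]
    have h1 := nz_digit p hb 1 (by omega)
    have h2 := nz_digit p hb 2 (by omega)
    have h4 := nz_digit p hb 4 (by omega)
    have h11 := nz_two_digits p hb 11 (by nlinarith)
    omega
  · have := nz_witness p hb 2 1 2 1 (by norm_num) (by omega) (ℓ + 7) (by omega)
    omega

end Pool.Agent.Results.MP_dd1d4c_nt.SquareDigits
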